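import Mathlib

/-!
# Curse of dimensionality for `L₁`-type integration with non-negative quadrature formulas (`p = 1`)

`UnitBall d` is the unit ball of `F_{d,∞}`: the functions on `[0,1]^d` with an essentially bounded
mixed derivative `g`, `|g| ≤ 1`, which vanish whenever one coordinate is `1`, that is
`f x = (-1)^d ∫_{[x,1]} g`.
-/

open MeasureTheory Set Filter
open scoped ENNReal

noncomputable section

namespace Pool.Agent.Results.MP_2335a4_an.CurseNonneg

/-- The unit ball of `F_{d,∞}`. -/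
def UnitBall (d : ℕ) : Set ((Fin d → ℝ) → ℝ) :=
  {f | ∃ g : (Fin d → ℝ) → ℝ, Measurable g ∧ (∀ y, |g y| ≤ 1) ∧
    ∀ x ∈ Icc (0 : Fin d → ℝ) 1, f x = (-1) ^ d * ∫ y in Icc x 1, g y}

/-- The worst case error of the quadrature formula `A f = ∑ k, a k * f (t k)` on the unit ball of
`F_{d,∞}`. -/
def err {d N : ℕ} (a : Fin N → ℝ) (t : Fin N → Fin d → ℝ) : ℝ≥0∞ :=
  ⨆ f ∈ UnitBall d,
    ENNReal.ofReal |(∫ x in Icc (0 : Fin d → ℝ) 1, f x) - ∑ k, a k * f (t k)|

/-- Non-negative quadrature formulas with `N` nodes in `[0,1)^d`. -/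
def Nonneg {d N : ℕ} (a : Fin N → ℝ) (t : Fin N → Fin d → ℝ) : Prop :=
  (∀ k, 0 ≤ a k) ∧ ∀ k i, 0 ≤ t k i ∧ t k i < 1

/-- `e⁺(N,d)`, the minimal worst case error of non-negative formulas with `N` nodes. -/
def ePlus (N d : ℕ) : ℝ≥0∞ :=
  ⨅ (a : Fin N → ℝ) (t : Fin N → Fin d → ℝ) (_ : Nonneg a t), err a t

/-- `N⁺(ε,d) = min {N : e⁺(N,d) ≤ ε 2^{-d}}` (with value `∞` if there is no such `N`). -/
def NPlus (ε : ℝ) (d : ℕ) : ℝ≥0∞ :=
  ⨅ (N : ℕ) (_ : ePlus N d ≤ ENNReal.ofReal (ε * (1 / 2) ^ d)), (N : ℝ≥0∞)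

/-- Curse of dimensionality: there are `ε > 0` and `C > 1` with `N⁺(ε,d) ≥ C^d` for infinitely
many `d`. -/
def Curse : Prop :=
  ∃ ε : ℝ, 0 < ε ∧ ∃ C : ℝ, 1 < C ∧ ∃ᶠ d in atTop, ENNReal.ofReal (C ^ d) ≤ NPlus ε d

/-! ### Proof -/

/-- the measure on the cube -/
def cubeMeas (d : ℕ) : Measure (Fin d → ℝ) := volume.restrict (Icc (0 : Fin d → ℝ) 1)

lemma cubeMeas_eq (d : ℕ) :
    cubeMeas d = Measure.pi (fun _ : Fin d => (volume : Measure ℝ).restrict (Icc 0 1)) := by
  unfold cubeMeas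
  rw [volume_pi, ← Measure.restrict_pi_pi]
  congr 1
  ext x
  simp [Pi.le_def]

instance (d : ℕ) : IsFiniteMeasure (cubeMeas d) := by
  unfold cubeMeas
  refine ⟨?_⟩
  rw [Measure.restrict_apply_univ]
  exact isCompact_Icc.measure_lt_top

lemma integral_cube_prod {d : ℕ} (φ : Fin d → ℝ → ℝ) :
    ∫ x, ∏ i, φ i (x i) ∂(cubeMeas d) = ∏ i, ∫ s in Icc (0 : ℝ) 1, φ i s := by
  rw [cubeMeas_eq]
  exact integral_fintype_prod_eq_prod _

/-- `x_1 ⋯ x_d` -/
def V {d : ℕ} (x : Fin d → ℝ) : ℝ := ∏ i, x i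

/-- indicator of `[t,1]` -/
def ind {d : ℕ} (t x : Fin d → ℝ) : ℝ := ∏ i, (Icc (t i) 1).indicator 1 (x i)

lemma ind_eq {d : ℕ} (t x : Fin d → ℝ) : ind t x = (Icc t 1).indicator 1 x := by
  classical
  unfold ind
  by_cases h : x ∈ Icc t 1
  · rw [indicator_of_mem h]
    simp only [Pi.one_apply]
    apply Finset.prod_eq_one
    intro i _
    rw [indicator_of_mem]
    · rfl
    · exact ⟨h.1 i, h.2 i⟩
  · rw [indicator_of_notMem h]
    have : ∃ i, ¬ (x i ∈ Icc (t i) 1) := by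
      by_contra hc
      push Not at hc
      exact h ⟨fun i => (hc i).1, fun i => (hc i).2⟩
    obtain ⟨i, hi⟩ := this
    apply Finset.prod_eq_zero (Finset.mem_univ i)
    rw [indicator_of_notMem hi]

lemma measurable_V {d : ℕ} : Measurable (V : (Fin d → ℝ) → ℝ) := by
  unfold V
  fun_prop

lemma measurable_ind {d : ℕ} (t : Fin d → ℝ) : Measurable (ind t) := by
  have : ind t = (Icc t 1).indicator 1 := funext (ind_eq t)
  rw [this]
  exact measurable_one.indicator measurableSet_Icc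

lemma ind_nonneg {d : ℕ} (t x : Fin d → ℝ) : 0 ≤ ind t x := by
  rw [ind_eq]; exact indicator_nonneg (fun _ _ => zero_le_one) _

lemma ind_le_one {d : ℕ} (t x : Fin d → ℝ) : ind t x ≤ 1 := by
  rw [ind_eq]; exact indicator_le' (fun _ _ => le_rfl) (fun _ _ => zero_le_one) _

lemma ind_sq {d : ℕ} (t x : Fin d → ℝ) : ind t x * ind t x = ind t x := by
  rw [ind_eq]
  by_cases h : x ∈ Icc t 1
  · simp [h]
  · simp [h]

/-- discrepancy function -/
def D {d N : ℕ} (a : Fin N → ℝ) (t : Fin N → Fin d → ℝ) (y : Fin d → ℝ) : ℝ :=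
  ∑ k, a k * ind (t k) y - V y

lemma measurable_D {d N : ℕ} (a : Fin N → ℝ) (t : Fin N → Fin d → ℝ) : Measurable (D a t) := by
  unfold D
  refine Measurable.sub ?_ measurable_V
  exact Finset.measurable_sum _ fun k _ => (measurable_ind _).const_mul _

/-- one-dimensional estimate -/
lemma poly_bound {r : ℝ} (h0 : 0 ≤ r) :
    1 + r + r ^ 2 - r ^ 3 - r ^ 4 - r ^ 5 ≤ (837 / 800) * (1 + r) := by
  nlinarith [sq_nonneg (r - 9 / 25), sq_nonneg (r * (r - 9 / 25)),
    mul_nonneg h0 (sq_nonneg (r - 9 / 25)),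
    mul_nonneg h0 (sq_nonneg (r * (r - 9/25))), mul_nonneg h0 h0]

lemma integrable_of_bdd {d : ℕ} {f : (Fin d → ℝ) → ℝ} (hf : Measurable f) {C : ℝ}
    (hC : ∀ x ∈ Icc (0 : Fin d → ℝ) 1, |f x| ≤ C) : Integrable f (cubeMeas d) := by
  refine Integrable.of_bound hf.aestronglyMeasurable C ?_
  unfold cubeMeas
  refine (ae_restrict_mem measurableSet_Icc).mono fun x hx => ?_
  rw [Real.norm_eq_abs]
  exact hC x hx

lemma V_mem {d : ℕ} {x : Fin d → ℝ} (hx : x ∈ Icc (0 : Fin d → ℝ) 1) : 0 ≤ V x ∧ V x ≤ 1 := by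
  unfold V
  exact ⟨Finset.prod_nonneg fun i _ => hx.1 i, Finset.prod_le_one (fun i _ => hx.1 i)
    fun i _ => hx.2 i⟩

lemma integrable_V {d : ℕ} : Integrable (V : (Fin d → ℝ) → ℝ) (cubeMeas d) :=
  integrable_of_bdd measurable_V (C := 1) fun x hx => by
    rw [abs_of_nonneg (V_mem hx).1]; exact (V_mem hx).2

lemma integrable_ind_mul {d : ℕ} (t : Fin d → ℝ) {g : (Fin d → ℝ) → ℝ} (hg : Measurable g)
    {C : ℝ} (hb : ∀ x ∈ Icc (0 : Fin d → ℝ) 1, |g x| ≤ C) :
    Integrable (fun y => ind t y * g y) (cubeMeas d) :=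
  integrable_of_bdd ((measurable_ind t).mul hg) (C := C) fun x hx => by
    rw [abs_mul, abs_of_nonneg (ind_nonneg t x)]
    have := hb x hx
    have h1 := ind_le_one t x
    have h2 := ind_nonneg t x
    nlinarith [abs_nonneg (g x)]

lemma integrable_ind {d : ℕ} (t : Fin d → ℝ) : Integrable (ind t) (cubeMeas d) :=
  integrable_of_bdd (measurable_ind t) (C := 1) fun x _ => by
    rw [abs_of_nonneg (ind_nonneg t x)]; exact ind_le_one t x

lemma setIntegral_box {d : ℕ} {x : Fin d → ℝ} (hx : x ∈ Icc (0 : Fin d → ℝ) 1)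
    (g : (Fin d → ℝ) → ℝ) :
    ∫ y in Icc x 1, g y = ∫ y, ind x y * g y ∂(cubeMeas d) := by
  have h1 : (fun y => ind x y * g y) = (Icc x 1).indicator g := by
    funext y
    rw [ind_eq]
    by_cases h : y ∈ Icc x 1
    · simp [h]
    · simp [h]
  rw [h1, integral_indicator measurableSet_Icc]
  unfold cubeMeas
  rw [Measure.restrict_restrict measurableSet_Icc]
  congr 2
  symm
  apply inter_eq_left.mpr
  exact Icc_subset_Icc_left hx.1

lemma integral_ind_left {d : ℕ} {y : Fin d → ℝ} (hy : y ∈ Icc (0 : Fin d → ℝ) 1) :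
    ∫ x, ind x y ∂(cubeMeas d) = V y := by
  unfold V
  have h : ∀ x : Fin d → ℝ, ind x y = ∏ i, (fun (i : Fin d) (s : ℝ) =>
      (Iic (y i)).indicator (1 : ℝ → ℝ) s) i (x i) := by
    intro x
    unfold ind
    apply Finset.prod_congr rfl
    intro i _
    simp only [indicator, mem_Icc, mem_Iic, Pi.one_apply]
    have := hy.2 i
    simp only [Pi.one_apply] at this
    simp [this]
  simp_rw [h]
  rw [integral_cube_prod]
  apply Finset.prod_congr rfl
  intro i _
  rw [integral_indicator measurableSet_Iic, Measure.restrict_restrict measurableSet_Iic]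
  have h0 : (0 : ℝ) ≤ y i := hy.1 i
  have h1 : y i ≤ 1 := hy.2 i
  have : Iic (y i) ∩ Icc 0 1 = Icc 0 (y i) := by
    ext s
    simp only [mem_inter_iff, mem_Iic, mem_Icc]
    constructor
    · rintro ⟨h, h', _⟩; exact ⟨h', h⟩
    · rintro ⟨h, h'⟩; exact ⟨h', h, h'.trans h1⟩
  rw [this]
  simp [h0]

lemma measurable_ind2 {d : ℕ} :
    Measurable (fun p : (Fin d → ℝ) × (Fin d → ℝ) => ind p.1 p.2) := by
  have : (fun p : (Fin d → ℝ) × (Fin d → ℝ) => ind p.1 p.2) =
      ({p : (Fin d → ℝ) × (Fin d → ℝ) | p.1 ≤ p.2 ∧ p.2 ≤ 1}).indicator 1 := by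
    funext p
    rw [ind_eq]
    simp only [indicator, mem_Icc]
    rfl
  rw [this]
  refine measurable_one.indicator ?_
  exact (measurableSet_le measurable_fst measurable_snd).inter
    (measurableSet_le measurable_snd measurable_const)

lemma fubini {d : ℕ} {g : (Fin d → ℝ) → ℝ} (hg : Measurable g) (hb : ∀ y, |g y| ≤ 1) :
    ∫ x, (∫ y, ind x y * g y ∂(cubeMeas d)) ∂(cubeMeas d) = ∫ y, V y * g y ∂(cubeMeas d) := by
  rw [integral_integral_swap]
  · unfold cubeMeas
    apply setIntegral_congr_fun measurableSet_Icc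
    intro y hy
    simp only
    rw [integral_mul_const]
    congr 1
    exact integral_ind_left hy
  · refine Integrable.of_bound
      ((measurable_ind2.mul (hg.comp measurable_snd)).aestronglyMeasurable) 1 ?_
    refine Eventually.of_forall fun p => ?_
    simp only [Function.uncurry]
    rw [Real.norm_eq_abs, abs_mul, abs_of_nonneg (ind_nonneg _ _)]
    have := hb p.2
    have h1 := ind_le_one p.1 p.2
    have h2 := ind_nonneg p.1 p.2
    nlinarith [abs_nonneg (g p.2)]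

/-- The worst case error is at least (in fact equal to) the `L₁`-discrepancy. -/
lemma disc_le_err {d N : ℕ} {a : Fin N → ℝ} {t : Fin N → Fin d → ℝ} (ht : Nonneg a t) :
    ENNReal.ofReal (∫ y, |D a t y| ∂(cubeMeas d)) ≤ err a t := by
  classical
  set g : (Fin d → ℝ) → ℝ := fun y => if 0 ≤ D a t y then 1 else -1 with hgdef
  have hg : Measurable g :=
    Measurable.ite (measurableSet_le measurable_const (measurable_D a t)) measurable_const
      measurable_const
  have hgb : ∀ y, |g y| ≤ 1 := by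
    intro y
    simp only [hgdef]
    split_ifs <;> simp
  set f : (Fin d → ℝ) → ℝ := fun x => (-1) ^ d * ∫ y in Icc x 1, g y with hf
  have hfm : f ∈ UnitBall d := ⟨g, hg, hgb, fun x _ => rfl⟩
  have key : |(∫ x in Icc (0 : Fin d → ℝ) 1, f x) - ∑ k, a k * f (t k)| =
      ∫ y, |D a t y| ∂(cubeMeas d) := by
    have e1 : (∫ x in Icc (0 : Fin d → ℝ) 1, f x) = (-1) ^ d * ∫ y, V y * g y ∂(cubeMeas d) := by
      rw [← fubini hg hgb, ← integral_const_mul]
      unfold cubeMeas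
      apply setIntegral_congr_fun measurableSet_Icc
      intro x hx
      simp only [hf]
      rw [setIntegral_box hx]
      rfl
    have e2 : ∀ k, f (t k) = (-1) ^ d * ∫ y, ind (t k) y * g y ∂(cubeMeas d) := by
      intro k
      simp only [hf]
      rw [setIntegral_box]
      exact ⟨fun i => (ht.2 k i).1, fun i => (ht.2 k i).2.le⟩
    have hgC : ∀ x ∈ Icc (0 : Fin d → ℝ) 1, |g x| ≤ 1 := fun x _ => hgb x
    have e3 : ∫ y, |D a t y| ∂(cubeMeas d) =
        (∑ k, a k * ∫ y, ind (t k) y * g y ∂(cubeMeas d)) - ∫ y, V y * g y ∂(cubeMeas d) := by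
      have i1 : ∀ k ∈ (Finset.univ : Finset (Fin N)),
          Integrable (fun y => a k * (ind (t k) y * g y)) (cubeMeas d) :=
        fun k _ => (integrable_ind_mul (t k) hg hgC).const_mul _
      have i2 : Integrable (fun y => V y * g y) (cubeMeas d) :=
        integrable_of_bdd (measurable_V.mul hg) (C := 1) fun x hx => by
          rw [abs_mul, abs_of_nonneg (V_mem hx).1]
          have := hgb x
          have h1 := (V_mem hx).1
          have h2 := (V_mem hx).2
          nlinarith [abs_nonneg (g x)]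
      simp_rw [← integral_const_mul]
      rw [← integral_finsetSum _ i1, ← integral_sub (integrable_finsetSum _ i1) i2]
      congr 1
      funext y
      have : ∑ k, a k * (ind (t k) y * g y) - V y * g y = D a t y * g y := by
        unfold D
        rw [sub_mul, Finset.sum_mul]
        congr 1
        apply Finset.sum_congr rfl
        intro k _
        ring
      rw [this]
      simp only [hgdef]
      split_ifs with h
      · rw [abs_of_nonneg h, mul_one]
      · rw [abs_of_neg (not_le.mp h)]; ring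
    rw [e1, e3]
    simp_rw [e2]
    have e4 : ∑ k, a k * ((-1) ^ d * ∫ y, ind (t k) y * g y ∂(cubeMeas d)) =
        (-1) ^ d * ∑ k, a k * ∫ y, ind (t k) y * g y ∂(cubeMeas d) := by
      rw [Finset.mul_sum]
      apply Finset.sum_congr rfl
      intro k _
      ring
    rw [e4, ← mul_sub, abs_mul, abs_pow, abs_neg, abs_one, one_pow, one_mul, abs_sub_comm,
      ← e3, abs_of_nonneg]
    exact integral_nonneg fun y => abs_nonneg _
  unfold err
  rw [← key]
  exact le_iSup₂_of_le f hfm le_rfl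

/-- `∏ √x_i` -/
def U {d : ℕ} (x : Fin d → ℝ) : ℝ := ∏ i, √(x i)

lemma U_nonneg {d : ℕ} (x : Fin d → ℝ) : 0 ≤ U x := Finset.prod_nonneg fun _ _ => Real.sqrt_nonneg _

lemma U_sq {d : ℕ} {x : Fin d → ℝ} (hx : x ∈ Icc (0 : Fin d → ℝ) 1) : U x ^ 2 = V x := by
  unfold U V
  rw [← Finset.prod_pow]
  apply Finset.prod_congr rfl
  intro i _
  exact Real.sq_sqrt (hx.1 i)

lemma measurable_U {d : ℕ} : Measurable (U : (Fin d → ℝ) → ℝ) := by
  unfold U
  exact Finset.measurable_prod _ fun i _ => (measurable_pi_apply i).sqrt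

lemma pointwise {d N : ℕ} {a : Fin N → ℝ} {t : Fin N → Fin d → ℝ} (ht : Nonneg a t)
    {x : Fin d → ℝ} (hx : x ∈ Icc (0 : Fin d → ℝ) 1) :
    V x + ∑ k, (a k * ind (t k) x - 2 * (√(a k) * (ind (t k) x * U x))) ≤ |D a t x| := by
  set S := ∑ k, a k * ind (t k) x with hS
  set R := ∑ k, √(a k) * ind (t k) x with hR
  have hS0 : 0 ≤ S := Finset.sum_nonneg fun k _ => mul_nonneg (ht.1 k) (ind_nonneg _ _)
  have hR0 : 0 ≤ R := Finset.sum_nonneg fun k _ => mul_nonneg (Real.sqrt_nonneg _) (ind_nonneg _ _)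
  have hSR : S ≤ R ^ 2 := by
    have : S = ∑ k, (√(a k) * ind (t k) x) ^ 2 := by
      apply Finset.sum_congr rfl
      intro k _
      rw [mul_pow, Real.sq_sqrt (ht.1 k), sq, ind_sq]
    rw [this]
    exact Finset.sum_sq_le_sq_sum_of_nonneg (fun k _ => mul_nonneg (Real.sqrt_nonneg _) (ind_nonneg _ _))
  have hsR : √S ≤ R := by
    rw [Real.sqrt_le_left hR0]
    exact hSR
  have hU := U_nonneg x
  have hUV := U_sq hx
  have hsS := Real.sq_sqrt hS0
  have hs0 := Real.sqrt_nonneg S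
  have e1 : ∑ k, (a k * ind (t k) x - 2 * (√(a k) * (ind (t k) x * U x))) = S - 2 * (R * U x) := by
    rw [Finset.sum_sub_distrib, ← Finset.mul_sum, hR, Finset.sum_mul]
    simp only [mul_assoc]
    rfl
  rw [e1]
  have e2 : D a t x = (√S - U x) * (√S + U x) := by
    unfold D
    rw [← hUV]
    nlinarith
  rw [e2, abs_mul, abs_of_nonneg (by positivity : 0 ≤ √S + U x)]
  have h3 : (√S - U x) ^ 2 ≤ |√S - U x| * (√S + U x) := by
    rw [← sq_abs, sq]
    apply mul_le_mul_of_nonneg_left _ (abs_nonneg _)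
    rw [abs_le]
    constructor <;> linarith
  nlinarith [mul_le_mul_of_nonneg_right hsR hU]

lemma integral_sqrt_Icc {u : ℝ} (h0 : 0 ≤ u) (h1 : u ≤ 1) :
    ∫ s in Icc (0 : ℝ) 1, (Icc u 1).indicator 1 s * √s = 2 / 3 * (1 - (√u) ^ 3) := by
  have e : (fun s : ℝ => (Icc u 1).indicator 1 s * √s) =
      (Icc u 1).indicator (fun s => √s) := by
    funext s
    by_cases h : s ∈ Icc u 1 <;> simp [h]
  rw [e, integral_indicator measurableSet_Icc, Measure.restrict_restrict measurableSet_Icc]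
  have : Icc u 1 ∩ Icc (0 : ℝ) 1 = Icc u 1 :=
    inter_eq_left.mpr (Icc_subset_Icc_left h0)
  rw [this, integral_Icc_eq_integral_Ioc, ← intervalIntegral.integral_of_le h1]
  simp_rw [Real.sqrt_eq_rpow]
  rw [integral_rpow (Or.inl (by norm_num))]
  have h2 : u ^ ((1 : ℝ) / 2 + 1) = (u ^ ((1 : ℝ) / 2)) ^ 3 := by
    rw [← Real.rpow_natCast, ← Real.rpow_mul h0]
    norm_num
  rw [h2, Real.one_rpow]
  ring

/-- `∫ 1_{[t,1]}` -/
def w {d : ℕ} (t : Fin d → ℝ) : ℝ := ∏ i, (1 - t i)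

/-- `∫ 1_{[t,1]} √(x_1⋯x_d)` -/
def h {d : ℕ} (t : Fin d → ℝ) : ℝ := ∏ i, (2 / 3 * (1 - (√(t i)) ^ 3))

lemma integral_ind {d : ℕ} {t : Fin d → ℝ} (ht : ∀ i, 0 ≤ t i ∧ t i < 1) :
    ∫ x, ind t x ∂(cubeMeas d) = w t := by
  unfold ind w
  rw [integral_cube_prod (fun i s => (Icc (t i) 1).indicator 1 s)]
  apply Finset.prod_congr rfl
  intro i _
  rw [integral_indicator measurableSet_Icc, Measure.restrict_restrict measurableSet_Icc]
  have : Icc (t i) 1 ∩ Icc (0 : ℝ) 1 = Icc (t i) 1 :=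
    inter_eq_left.mpr (Icc_subset_Icc_left (ht i).1)
  rw [this]
  simp [(ht i).2.le]

lemma integral_ind_U {d : ℕ} {t : Fin d → ℝ} (ht : ∀ i, 0 ≤ t i ∧ t i < 1) :
    ∫ x, ind t x * U x ∂(cubeMeas d) = h t := by
  unfold ind U h
  simp_rw [← Finset.prod_mul_distrib]
  rw [integral_cube_prod (fun i s => (Icc (t i) 1).indicator 1 s * √s)]
  apply Finset.prod_congr rfl
  intro i _
  exact integral_sqrt_Icc (ht i).1 (ht i).2.le

lemma integral_V {d : ℕ} : ∫ x, V x ∂(cubeMeas d) = (1 / 2) ^ d := by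
  unfold V
  rw [integral_cube_prod (fun _ s => s)]
  have : ∫ s in Icc (0 : ℝ) 1, s = 1 / 2 := by
    rw [integral_Icc_eq_integral_Ioc, ← intervalIntegral.integral_of_le zero_le_one, integral_id]
    norm_num
  simp [this]

lemma w_pos {d : ℕ} {t : Fin d → ℝ} (ht : ∀ i, 0 ≤ t i ∧ t i < 1) : 0 < w t :=
  Finset.prod_pos fun i _ => by linarith [(ht i).2]

lemma h_sq_le {d : ℕ} {t : Fin d → ℝ} (ht : ∀ i, 0 ≤ t i ∧ t i < 1) :
    h t ^ 2 ≤ ((1 / 2) ^ d * (93 / 100) ^ d) * w t := by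
  have e : ((1 / 2 : ℝ) ^ d * (93 / 100) ^ d) * w t =
      ∏ i : Fin d, ((1 / 2) * (93 / 100) * (1 - t i)) := by
    unfold w
    rw [Finset.prod_mul_distrib, Finset.prod_const, Finset.card_univ, Fintype.card_fin, mul_pow]
  rw [e]
  unfold h
  rw [← Finset.prod_pow]
  apply Finset.prod_le_prod
  · intro i _; positivity
  intro i _
  set r := √(t i) with hr
  have hr0 : 0 ≤ r := Real.sqrt_nonneg _
  have hr2 : t i = r ^ 2 := (Real.sq_sqrt (ht i).1).symm
  have hr1 : r ≤ 1 := by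
    rw [hr]
    exact Real.sqrt_le_one.mpr (ht i).2.le
  rw [hr2]
  have hp := poly_bound hr0
  have h1 : (2 / 3 * (1 - r ^ 3)) ^ 2 =
      4 / 9 * ((1 - r) * (1 + r + r ^ 2 - r ^ 3 - r ^ 4 - r ^ 5)) := by ring
  have h2 : (1 / 2 : ℝ) * (93 / 100) * (1 - r ^ 2) = 4 / 9 * ((1 - r) * (837 / 800 * (1 + r))) := by
    ring
  rw [h1, h2]
  have h3 : 0 ≤ 1 - r := by linarith
  nlinarith [mul_le_mul_of_nonneg_left hp h3]

/-- Lower bound for the worst case error. -/
lemma err_lower {d N : ℕ} {a : Fin N → ℝ} {t : Fin N → Fin d → ℝ} (ht : Nonneg a t) :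
    ENNReal.ofReal ((1 / 2) ^ d * (1 - N * (93 / 100) ^ d)) ≤ err a t := by
  refine le_trans (ENNReal.ofReal_le_ofReal ?_) (disc_le_err ht)
  have i2 : ∀ k, Integrable (fun x => ind (t k) x * U x) (cubeMeas d) := fun k =>
    integrable_ind_mul (t k) measurable_U (C := 1) fun x hx => by
      rw [abs_of_nonneg (U_nonneg x)]
      have h1 := U_sq hx
      have h2 := (V_mem hx).2
      have h3 := U_nonneg x
      nlinarith
  have i3 : ∀ k ∈ (Finset.univ : Finset (Fin N)), Integrable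
      (fun x => a k * ind (t k) x - 2 * (√(a k) * (ind (t k) x * U x))) (cubeMeas d) := fun k _ =>
    ((integrable_ind (t k)).const_mul _).sub (((i2 k).const_mul _).const_mul _)
  have i4 : Integrable (fun x => |D a t x|) (cubeMeas d) := by
    apply Integrable.abs
    unfold D
    exact (integrable_finsetSum _ fun k _ => (integrable_ind (t k)).const_mul _).sub integrable_V
  have h1 : ∫ x, (V x + ∑ k, (a k * ind (t k) x - 2 * (√(a k) * (ind (t k) x * U x))))
      ∂(cubeMeas d) ≤ ∫ x, |D a t x| ∂(cubeMeas d) := by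
    apply integral_mono_ae (integrable_V.add (integrable_finsetSum _ i3)) i4
    unfold cubeMeas
    refine (ae_restrict_mem measurableSet_Icc).mono fun x hx => ?_
    exact pointwise ht hx
  refine le_trans ?_ h1
  rw [integral_add integrable_V (integrable_finsetSum _ i3), integral_V, integral_finsetSum _ i3]
  have h2 : ∀ k, -((1 / 2) ^ d * (93 / 100) ^ d) ≤
      ∫ x, (a k * ind (t k) x - 2 * (√(a k) * (ind (t k) x * U x))) ∂(cubeMeas d) := by
    intro k
    rw [integral_sub ((integrable_ind (t k)).const_mul _) (((i2 k).const_mul _).const_mul _),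
      integral_const_mul, integral_const_mul, integral_const_mul, integral_ind (ht.2 k),
      integral_ind_U (ht.2 k)]
    have hw := w_pos (ht.2 k)
    have hh := h_sq_le (ht.2 k)
    have hs := Real.sq_sqrt (ht.1 k)
    have h3 : 0 ≤ (√(a k) * w (t k) - h (t k)) ^ 2 := sq_nonneg _
    have h4 : 0 ≤ w (t k) * (a k * w (t k) - 2 * (√(a k) * h (t k)) +
        ((1 / 2) ^ d * (93 / 100) ^ d)) := by
      have h6 : w (t k) * (a k * w (t k) - 2 * (√(a k) * h (t k)) +
        ((1 / 2) ^ d * (93 / 100) ^ d)) = (√(a k) * w (t k) - h (t k)) ^ 2 +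
          ((1 / 2) ^ d * (93 / 100) ^ d * w (t k) - h (t k) ^ 2) +
          (a k - √(a k) ^ 2) * w (t k) ^ 2 := by ring
      rw [h6, hs]
      linarith [sub_self (a k), mul_comm (a k - a k) (w (t k) ^ 2)]
    have h5 := nonneg_of_mul_nonneg_right h4 hw
    linarith
  have h3 : ∑ _k : Fin N, -((1 / 2 : ℝ) ^ d * (93 / 100) ^ d) ≤
      ∑ k, ∫ x, (a k * ind (t k) x - 2 * (√(a k) * (ind (t k) x * U x))) ∂(cubeMeas d) :=
    Finset.sum_le_sum fun k _ => h2 k
  rw [Finset.sum_const, Finset.card_univ, Fintype.card_fin, nsmul_eq_mul] at h3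
  nlinarith

lemma ePlus_lower (d N : ℕ) :
    ENNReal.ofReal ((1 / 2) ^ d * (1 - N * (93 / 100) ^ d)) ≤ ePlus N d := by
  unfold ePlus
  exact le_iInf fun a => le_iInf fun t => le_iInf fun ht => err_lower ht

lemma NPlus_lower {ε : ℝ} (h0 : 0 < ε) (d : ℕ) :
    ENNReal.ofReal ((1 - ε) * (100 / 93) ^ d) ≤ NPlus ε d := by
  unfold NPlus
  refine le_iInf fun N => le_iInf fun hN => ?_
  have h1 := (ePlus_lower d N).trans hN
  rw [ENNReal.ofReal_le_ofReal_iff (by positivity)] at h1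
  rw [← ENNReal.ofReal_natCast]
  apply ENNReal.ofReal_le_ofReal
  have h2 : (0 : ℝ) < (1 / 2) ^ d := by positivity
  have h3 : 1 - (N : ℝ) * (93 / 100) ^ d ≤ ε := by
    rw [mul_comm ε] at h1
    exact le_of_mul_le_mul_left h1 h2
  have h4 : (93 / 100 : ℝ) ^ d * (100 / 93) ^ d = 1 := by
    rw [← mul_pow]; norm_num
  have h5 : (0 : ℝ) < (100 / 93) ^ d := by positivity
  nlinarith [mul_le_mul_of_nonneg_right h3 h5.le]

/-- Integration on `F_{d,∞}` (the case `p = 1`) with non-negative quadrature formulas suffers from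
the curse of dimensionality; explicitly `N⁺(ε,d) ≥ (1-ε) (100/93)^d` for all `ε ∈ (0,1)` and all
`d`. -/
theorem result : Curse ∧
    ∀ ε : ℝ, 0 < ε → ε < 1 → ∀ d : ℕ, ENNReal.ofReal ((1 - ε) * (100 / 93) ^ d) ≤ NPlus ε d := by
  refine ⟨⟨1 / 2, by norm_num, 107 / 100, by norm_num, ?_⟩, fun ε h0 _ d => NPlus_lower h0 d⟩
  apply Eventually.frequently
  have h1 : Tendsto (fun d : ℕ => ((10000 : ℝ) / 9951) ^ d) atTop atTop :=
    tendsto_pow_atTop_atTop_of_one_lt (by norm_num)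
  filter_upwards [h1.eventually_ge_atTop 2] with d hd
  refine le_trans (ENNReal.ofReal_le_ofReal ?_) (NPlus_lower (by norm_num) d)
  have h2 : (100 / 93 : ℝ) ^ d = (10000 / 9951) ^ d * (107 / 100) ^ d := by
    rw [← mul_pow]; norm_num
  rw [h2]
  have h3 : (0 : ℝ) < (107 / 100) ^ d := by positivity
  nlinarith

end Pool.Agent.Results.MP_2335a4_an.CurseNonneg
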